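import Mathlib
import Pool.Agent.W_MP_a4e3f3_an.Main

set_option autoImplicit false

namespace Pool.Agent.Results.MP_a4e3f3_an.NoNormingMBasis

open scoped ENNReal

universe u v w x

/-- A Markushevich basis of a normed space `Z` over `𝕜`: a family of pairs
`(e i, φ i) ∈ Z × Z*` that is biorthogonal, such that the closed linear span of the `e i` is `Z`
and the `φ i` separate the points of `Z`. -/
structure IsMarkushevichBasis {𝕜 : Type u} [RCLike 𝕜] {Z : Type v} [NormedAddCommGroup Z]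
    [NormedSpace 𝕜 Z] {ι : Type w} (e : ι → Z) (φ : ι → StrongDual 𝕜 Z) : Prop where
  pairing_self : ∀ i, φ i (e i) = 1
  pairing_ne : ∀ i j, i ≠ j → φ i (e j) = 0
  closure_span : closure (Submodule.span 𝕜 (Set.range e) : Set Z) = Set.univ
  separating : ∀ z : Z, (∀ i, φ i z = 0) → z = 0

/-- The functionals of norm at most `1` in the linear span of the family `φ`. -/
def unitBallOfSpan {𝕜 : Type u} [RCLike 𝕜] {Z : Type v} [NormedAddCommGroup Z]
    [NormedSpace 𝕜 Z] {ι : Type w} (φ : ι → StrongDual 𝕜 Z) : Set (StrongDual 𝕜 Z) :=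
  {ψ | ψ ∈ Submodule.span 𝕜 (Set.range φ) ∧ ‖ψ‖ ≤ 1}

/-- The family `φ` of functionals is `lam`-norming: for every `z`, the supremum of `|⟨ψ, z⟩|` over
all `ψ` in the linear span of the `φ i` with `‖ψ‖ ≤ 1` is at least `lam * ‖z‖`. -/
def IsNormingFamily {𝕜 : Type u} [RCLike 𝕜] {Z : Type v} [NormedAddCommGroup Z]
    [NormedSpace 𝕜 Z] {ι : Type w} (lam : ℝ) (φ : ι → StrongDual 𝕜 Z) : Prop :=
  ∀ z : Z, lam * ‖z‖ ≤ sSup ((fun ψ => ‖ψ z‖) '' unitBallOfSpan φ)

/-- The normed space `Z` admits a norming Markushevich basis (with index type in the universe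
`w`): some Markushevich basis of `Z` is `lam`-norming for some `lam ∈ (0, 1]`. -/
def AdmitsNormingMarkushevichBasis (𝕜 : Type u) [RCLike 𝕜] (Z : Type v) [NormedAddCommGroup Z]
    [NormedSpace 𝕜 Z] : Prop :=
  ∃ (ι : Type w) (e : ι → Z) (φ : ι → StrongDual 𝕜 Z), IsMarkushevichBasis e φ ∧
    ∃ lam : ℝ, 0 < lam ∧ lam ≤ 1 ∧ IsNormingFamily lam φ

/-- The space `ℓ₁(Γ)` over `𝕜`, as Mathlib's `lp (fun _ : Γ => 𝕜) 1`. -/
def EllOne (𝕜 : Type u) [RCLike 𝕜] (Γ : Type x) : Type (max u x) := lp (fun _ : Γ => 𝕜) 1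

/-- `ℓ₁(Γ)` with Mathlib's `ℓ₁`-norm. -/
noncomputable instance ellOneNormedAddCommGroup (𝕜 : Type u) [RCLike 𝕜] (Γ : Type x) :
    NormedAddCommGroup (EllOne 𝕜 Γ) :=
  (lp.normedAddCommGroup : NormedAddCommGroup (lp (fun _ : Γ => 𝕜) 1))

/-- `ℓ₁(Γ)` with Mathlib's scalar multiplication. -/
noncomputable instance ellOneNormedSpace (𝕜 : Type u) [RCLike 𝕜] (Γ : Type x) :
    NormedSpace 𝕜 (EllOne 𝕜 Γ) :=
  (lp.instNormedSpace : NormedSpace 𝕜 (lp (fun _ : Γ => 𝕜) 1))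

theorem result_lp (𝕜 : Type u) [RCLike 𝕜] (Γ : Type x) [Uncountable Γ] :
    ∃ Z : Submodule 𝕜 (lp (fun _ : Γ => 𝕜) 1),
      IsClosed (Z : Set (lp (fun _ : Γ => 𝕜) 1)) ∧
        ¬ AdmitsNormingMarkushevichBasis.{u, max u x, w} 𝕜 Z := by
  obtain ⟨J, hJ, A, U, g0, g1, hAinf, hAD, hg0, hg1, hU⟩ :=
    Pool.Agent.W_MP_a4e3f3_an.exists_data Γ
  refine ⟨Pool.Agent.W_MP_a4e3f3_an.ker 𝕜 U, Pool.Agent.W_MP_a4e3f3_an.isClosed_ker U, ?_⟩
  rintro ⟨ι, e, φ, hM, lam, hlam, -, hnorm⟩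
  refine Pool.Agent.W_MP_a4e3f3_an.no_sigma (𝕜 := 𝕜) hAinf hAD hg0 hg1 hU e
    (dense_iff_closure_eq.mpr hM.closure_span) (half_pos hlam) ?_
  intro z
  -- every functional in the span of the `φ i` has finite support on the `e i`
  have hsupp : ∀ ψ ∈ Submodule.span 𝕜 (Set.range φ), {i | ψ (e i) ≠ 0}.Countable := by
    intro ψ hψ
    refine Submodule.span_induction (p := fun ψ _ => {i | ψ (e i) ≠ 0}.Countable) ?_ ?_ ?_ ?_ hψ
    · rintro _ ⟨j, rfl⟩
      refine (Set.countable_singleton j).mono ?_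
      intro i hi
      by_contra hij
      exact hi (hM.pairing_ne j i (fun h => hij h.symm))
    · refine Set.countable_empty.mono ?_
      intro i hi
      exact absurd rfl hi
    · intro ψ₁ ψ₂ _ _ h₁ h₂
      refine (h₁.union h₂).mono ?_
      intro i hi
      by_contra hcon
      simp only [Set.mem_union, Set.mem_ofPred_eq, not_or, not_not] at hcon
      apply hi
      show ψ₁ (e i) + ψ₂ (e i) = 0
      rw [hcon.1, hcon.2, add_zero]
    · intro a ψ _ h
      refine h.mono ?_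
      intro i hi hcon
      apply hi
      show a * ψ (e i) = 0
      rw [hcon, mul_zero]
  rcases eq_or_ne z 0 with rfl | hz
  · refine ⟨0, ?_, hsupp 0 (Submodule.zero_mem _), ?_⟩
    · refine ContinuousLinearMap.opNorm_le_bound _ zero_le_one (fun x => ?_)
      have h0 : (0 : StrongDual 𝕜 (Pool.Agent.W_MP_a4e3f3_an.ker 𝕜 U)) x = 0 := rfl
      rw [h0, norm_zero]
      positivity
    · rw [norm_zero, mul_zero]
      exact norm_nonneg _
  · have hzpos : 0 < ‖z‖ := norm_pos_iff.mpr hz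
    have hlt : lam / 2 * ‖z‖ < sSup ((fun ψ => ‖ψ z‖) '' unitBallOfSpan φ) := by
      refine lt_of_lt_of_le ?_ (hnorm z)
      nlinarith
    have hne : ((fun ψ => ‖ψ z‖) '' unitBallOfSpan φ).Nonempty := by
      rw [Set.nonempty_iff_ne_empty]
      intro hemp
      rw [hemp, Real.sSup_empty] at hlt
      have : 0 < lam / 2 * ‖z‖ := by positivity
      linarith
    obtain ⟨_, ⟨ψ, ⟨hψ, hψ1⟩, rfl⟩, hr⟩ := exists_lt_of_lt_csSup hne hlt
    exact ⟨ψ, hψ1, hsupp ψ hψ, hr.le⟩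

/-- For every uncountable set `Γ` there is a closed subspace `Z` of `ℓ₁(Γ)` (real or complex
scalars) that admits no norming Markushevich basis. -/
theorem result (𝕜 : Type u) [RCLike 𝕜] (Γ : Type x) [Uncountable Γ] :
    ∃ Z : Submodule 𝕜 (EllOne 𝕜 Γ), IsClosed (Z : Set (EllOne 𝕜 Γ)) ∧
      ¬ AdmitsNormingMarkushevichBasis.{u, max u x, w} 𝕜 Z :=
  result_lp 𝕜 Γ

end Pool.Agent.Results.MP_a4e3f3_an.NoNormingMBasis
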